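import Pool.Agent.N676.RV.Pro
import Pool.Agent.Results.MP_bd895b_nt.RandomOrbits

/-!
# The local-global complex for zero-cycles modulo 2 on twists of cyclic coverings by families of residues

Let `b y ^ 2 = ∏ k, G k (z, w)` be a hyperelliptic curve `D` over `ℚ`, where the `G k` are the
homogenisations of polynomials `g k` with integral coefficients, of even degrees, pairwise coprime, and
let `h` be a polynomial with integral coefficients, coprime to the `g k`, `H` its homogenisation
(`Admissible`). For an integer `a` and an even `m ∣ deg h` let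

  `C a : b y ^ 2 = ∏ k, G k (z, w)`, `a x ^ m = H (z, w)`.

The starting result `LocalGlobalComplexOfTwists` (whose definitions are used) treats 100% of the
squarefree integers `|a| ≤ X`, for one family `(b, g, h)`. Here `a = λ(c)` is the value of a linear form
`λ ≠ 0` with integral coefficients at the vectors `c = c₀ + y_i`, `i ∈ s`, where `c₀` is any integral vector and
the `y_i` are the least residues of vectors of residues modulo `q` whose Fourier coefficients at the nonzero
frequencies are at most `|s| / (Z (42 + 3 log q) ^ r)` (`Small`, `r` the number of the coordinates). There are very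
thin families of this kind (`Examples`), also with one coordinate (`r = 1`, `λ = 1`): cosets of subgroups of order
`≥ 5 p^(3/8+δ)` modulo primes `p`, sets of quotients `j / r` modulo `p` of polylogarithmic size, values
`f(n)` modulo `p`, `n ≤ p^(1/d+δ)`, of polynomials of degree `d`.

**Theorem.** (1) For every family `(b, g, h)`, every `λ ≠ 0` and `ε > 0` there is `Z₀` such that for all families of
vectors with `Z ≥ Z₀` and all `c₀`, for all but `ε |s|` of the `i ∈ s` the integer `a = λ(c₀ + y_i)` has the property
`Good` (`AlmostAll`).

(2) For each sequence of families of vectors with `Z k → ∞` there are exceptional sets `E k` of members of the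
families, of proportions tending to zero, such that for ALL linear forms `λ ≠ 0` and ALL families `(b, g, h)`, for all
large `k`, the integers `a = λ(c₀ + y_i)` for all `i ∈ s k` outside `E k` have the property `Good`.

(3) The examples of families of vectors.

`Good` (as in `RandomOrbits`) means that for all even `m ∣ deg h` and every adelic zero-cycle `(z_v)` on `C a`, of
degrees congruent to `d` modulo 2, which is orthogonal to the quaternion algebras `(G k, e)`:
* there are squarefree integers `n k` with `G k (z_v) = n k` in `ℚ_v* / ℚ_v*²` for all `k` and all `v`,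
  and the family `n` is persistent;
* if the zeros of `h` are one or two rational numbers `α₁`, `α₂`, and `d` is odd or `b ∏ g k (α₁)` is a
  square, there is a zero-cycle `z` of degree `d` over `ℚ` with `G k (z) = G k (z_v)` in
  `ℚ_v* / ℚ_v*²` for all `k` and all `v`: the complex
  `CH₀(C a) / 2 → ∏ v, CH₀(C a over ℚ_v) / 2 → Hom(Br, ℚ/ℤ)` is exact up to the kernels of the `(G k)`.

The proof: the vectors `c` for which `λ(c)` does not have the property are a pronull set (`RandomOrbits`; local
analysis by helper925, engine of helper24); the families of vectors are uniformly distributed modulo all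
integers up to a power of `Z` (helper384), so they have few members in a pronull set.
-/

set_option autoImplicit false

namespace Pool.Agent.N676.Kept.ResidueVectorsBd895b

open Polynomial Filter Pool.Agent.N24.RW Pool.Agent.N676.RV
open Pool.Agent.Results.MP_bd895b_nt.LocalGlobalComplexOfTwists (Admissible)
open Pool.Agent.Results.MP_bd895b_nt.RandomOrbits (Good)

theorem result (ι : Type) [Fintype ι] :
    (∀ (r : ℕ) (b : ℤ) (g : Fin r → ℤ[X]) (h : ℤ[X]), Admissible b g h → ∀ lam : ι → ℤ, lam ≠ 0 →
      AlmostAll fun c : ι → ℤ => Good b g h (∑ i, lam i * c i)) ∧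
    (∀ F : Fams ι, ∃ E : ∀ k, Set (F.τ k), F.Thin E ∧
      ∀ lam : ι → ℤ, lam ≠ 0 → ∀ (r : ℕ) (b : ℤ) (g : Fin r → ℤ[X]) (h : ℤ[X]), Admissible b g h →
        ∀ᶠ k in atTop, ∀ i ∈ F.s k, i ∉ E k → Good b g h (∑ j, lam j * F.v k i j)) ∧
    Examples := by
  classical
  have hcp := Pool.Agent.N676.OR.countable_poly
  refine ⟨?_, ?_, examples⟩
  · intro r b g h hA lam hlam ε hε
    obtain ⟨Z₀, h0⟩ := pro_fam (Pool.Agent.Results.MP_bd895b_nt.RandomOrbits.result.1 r b g h hA ι lam hlam) ε hε
    refine ⟨Z₀, fun τ q' _ S y Z hZ hsm c₀ => le_trans (ncard_mono fun i _ hi => ?_) (h0 τ q' S y Z hZ hsm c₀)⟩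
    intro hcon
    exact hcon hi
  · intro F
    obtain ⟨E, hE, h1⟩ := one_fam F (κ := (Σ r : ℕ, ℤ × (Fin r → ℤ[X]) × ℤ[X]) × (ι → ℤ))
      (fun x => {c : ι → ℤ | (Admissible x.1.2.1 x.1.2.2.1 x.1.2.2.2 ∧ x.2 ≠ 0) ∧
        ¬ Good x.1.2.1 x.1.2.2.1 x.1.2.2.2 (∑ i, x.2 i * c i)}) (by
      rintro ⟨⟨r, b, g, h⟩, lam⟩
      by_cases hA : Admissible b g h ∧ lam ≠ 0
      · refine Clo.mono ?_ (Pool.Agent.Results.MP_bd895b_nt.RandomOrbits.result.1 r b g h hA.1 ι lam hA.2)
        rintro c ⟨_, hc⟩
        exact hc
      · refine Clo.mono ?_ (pro_biUnion (κ := ℕ) (fun _ => (∅ : Set (ι → ℤ))) (fun _ => ?_) ∅)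
        · rintro c ⟨hc, _⟩
          exact absurd hc hA
        · intro M hM ε hε
          refine ⟨1, one_pos, Nat.coprime_one_left M, ?_⟩
          simp
          positivity)
    refine ⟨E, hE, fun lam hlam r b g h hA => ?_⟩
    filter_upwards [h1 ⟨⟨r, b, g, h⟩, lam⟩] with k hk i hi hiE
    by_contra hcon
    exact hk i hi hiE ⟨⟨hA, hlam⟩, hcon⟩

end Pool.Agent.N676.Kept.ResidueVectorsBd895b

/-
Kept (exchange on a full page, 26 November 21:15): formerly Results/MP_bd895b_nt/ResidueVectors.lean of helper676.
Its claim file:

Proves: (b,g,h): b<>0, g_k, h in Z[z], deg g_k even, h not constant, pairwise coprime; C_a: b y^2=prod G_k(z,w), a x^m=H(z,w). Vectors c0+y_i, i in s, y_i least residues of r-vectors mod q with |sum_i e(l.y_i/q)|<=|s|/(Z(42+3log q)^r), all l<>0 mod q, Z<=q. (1) For each (b,g,h), linear form L<>0, e>0 there is Z0: if Z>=Z0, for any c0, for all but e|s| of the i, Good(L(c0+y_i)). (2) For each sequence of families, Z->oo, sets of exceptional members of proportion ->0 such that for ALL L, (b,g,h), in all large families all others are Good. (3) Such families: products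 of one-coordinate ones; mod large primes p, with |s|/K: j/l, l<=R prime, 0<=j<S (K log^4 p<=R<p, R^2<=S); cosets of subgroups of order >=5p^(3/8)K^3; ab+g(a)+k(b), a in A, b in B, |A||B|>=pK^2; (f_j(n))_j, n<x, distinct degrees in [d,D], leading coefficients prime to p, CK^C<=p, CK^C p<=x^d.
Definitions: Good(a): for even m | deg h adelic zero-cycles on C_a, degrees = d mod 2, orthogonal to the quaternion algebras (G_k,e), have values of a persistent class (n_k) (every σ in G_Q maps a set S of zeros of h to itself, |S|=d mod 2, prod_S g_k=n_k y^2, σy=y); if h has <=2 zeros, rational, d odd or b prod g_k(α_1) a square: those of a zero-cycle over Q of degree d. Small, Flat, vec: bound on the sums; c0+y_i. Fams, Thin: sequences of families; proportion ->0. AlmostAll: (1). Examples: (3).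
Relation: Partial, Q1. Starting LocalGlobalComplexOfTwists: most |a|<=X, one family. New: thin residue families, one exceptional set. Helpers 384, 24.

-/
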